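import Pool.Agent.Helper14_MV.J
import Pool.Agent.Helper4_MV.Dist

/-!
# The case in which `xyx` is not an isoterm (MP_23468a_al)
-/

namespace Pool.Agent.MVO.H83

open Pool.Agent.Helper14_MV
open FreeMonoid (of)

theorem op_op (β : FIC) : FIC.op (FIC.op β) = β := by
  apply FIC.ext'
  intro a b
  show β.r _ _ ↔ _
  rw [FreeMonoid.reverse_reverse, FreeMonoid.reverse_reverse]

theorem rev_xy (a b : ℕ) : (lx ^ a * ly ^ b).reverse = ly ^ b * lx ^ a := by
  rw [FreeMonoid.reverse_mul, FIC.reverse_pow, FIC.reverse_pow]; rfl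

theorem rev_yx (a b : ℕ) : (ly ^ b * lx ^ a).reverse = lx ^ a * ly ^ b := by
  rw [FreeMonoid.reverse_mul, FIC.reverse_pow, FIC.reverse_pow]; rfl

theorem op_h1 {β : FIC} (h : β.r (lx * ly * lx) (ly * lx ^ 2)) :
    (FIC.op β).r (lx * ly * lx) (lx ^ 2 * ly) := by
  show β.r _ _
  have e1 : (lx * ly * lx).reverse = lx * ly * lx := rfl
  have e2 : (lx ^ 2 * ly).reverse = ly * lx ^ 2 := by
    have := rev_xy 2 1
    rwa [pow_one] at this
  rw [e1, e2]
  exact h

theorem op_co2 {β : FIC} {n : ℕ} (h : β.r (lx ^ n * ly) (ly * lx ^ n)) :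
    (FIC.op β).r (lx ^ n * ly) (ly * lx ^ n) := by
  show β.r _ _
  have e1 := rev_xy n 1
  have e2 := rev_yx n 1
  rw [pow_one] at e1 e2
  rw [e1, e2]
  exact β.symm h

/-- `xyx ≈ x²y` or `xyx ≈ yx²`, and `x^k` central: the modular law -/
theorem modF_of_xyx {β : FIC}
    (h1 : β.r (lx * ly * lx) (lx ^ 2 * ly) ∨ β.r (lx * ly * lx) (ly * lx ^ 2)) {k : ℕ}
    (hk : 1 ≤ k) (h : β.r (lx ^ k * ly) (ly * lx ^ k)) : ModF β := by
  rcases h1 with h1 | h1
  · exact distF_modF (Helper4_MV.C β h1 k hk h)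
  · rw [← op_op β]
    exact op_modF (distF_modF (Helper4_MV.C _ (op_h1 h1) k hk (op_co2 h)))

/-- `x²` is an isoterm and `xyx` is not -/
theorem xyx_of_iso {β : FIC} (h2 : ∀ w, β.r (lx ^ 2) w → w = lx ^ 2) {w : Word}
    (hw : w ≠ lx * ly * lx) (h : β.r (lx * ly * lx) w) :
    β.r (lx * ly * lx) (lx ^ 2 * ly) ∨ β.r (lx * ly * lx) (ly * lx ^ 2) := by
  have h4 : β ≤ thC3 := le_thC3 h2
  rcases cases21 (h4 _ _ h) (by simp [cnt_lx, cnt_ly]) (by simp [cnt_lx, cnt_ly])
    (by intro i h0 h1; simp [cnt_lx_other h0, cnt_ly_other h1]) with h5 | h5 | h5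
  · subst h5; exact Or.inl h
  · exact absurd h5 hw
  · subst h5; exact Or.inr h

section
variable {β : FIC}

/-- substitution of words for `x`, `y` -/
theorem sub2 {m : ℕ} (h : β.r (lx ^ m * ly) (ly * lx ^ m)) (u v : Word) :
    β.r (u ^ m * v) (v * u ^ m) := by
  have := β.sub (FreeMonoid.lift (fun i => if i = 0 then u else v)) h
  simpa [lx, ly, FreeMonoid.lift_eval_of] using this

/-- all powers `x^m`, `m ≥ 2`, are central -/
theorem cen (h2 : β.r (lx ^ 2 * ly) (ly * lx ^ 2)) (h3 : β.r (lx ^ 3 * ly) (ly * lx ^ 3)) (m : ℕ)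
    (hm : 2 ≤ m) : β.r (lx ^ m * ly) (ly * lx ^ m) := by
  induction m using Nat.strong_induction_on with
  | _ m ih =>
    rcases Nat.lt_or_ge m 4 with h4 | h4
    · interval_cases m
      · exact h2
      · exact h3
    · obtain ⟨k, rfl⟩ : ∃ k, m = k + 2 := ⟨m - 2, by omega⟩
      have h1 := ih k (by omega) (by omega)
      have a1 : β.r (lx ^ (k + 2) * ly) (lx ^ k * (ly * lx ^ 2)) := by
        rw [pow_add, mul_assoc]
        exact FIC.mulL _ h2
      refine β.trans a1 ?_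
      rw [← mul_assoc, pow_add, ← mul_assoc]
      exact FIC.mulR _ h1

theorem comm_of (h2 : β.r (lx ^ 2 * ly) (ly * lx ^ 2)) (h3 : β.r (lx ^ 3 * ly) (ly * lx ^ 3))
    {m : ℕ} (hm : 2 ≤ m) (h : β.r lx (lx ^ m)) : β.r (lx * ly) (ly * lx) :=
  β.trans (FIC.mulR _ h) (β.trans (cen h2 h3 m hm) (FIC.mulL _ (β.symm h)))

theorem xyx_of_comm (h : β.r (lx * ly) (ly * lx)) : β.r (lx * ly * lx) (lx ^ 2 * ly) := by
  rw [pow_two, mul_assoc, mul_assoc]
  exact FIC.mulL _ (β.symm h)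

/-- squares and cubes are central and `xyx` is not an isoterm -/
theorem xyx_of_cq (h2 : β.r (lx ^ 2 * ly) (ly * lx ^ 2)) (h3 : β.r (lx ^ 3 * ly) (ly * lx ^ 3))
    {w : Word} (hw : w ≠ lx * ly * lx) (h : β.r (lx * ly * lx) w) :
    β.r (lx * ly * lx) (lx ^ 2 * ly) := by
  have hcom : ∀ m, 2 ≤ m → β.r lx (lx ^ m) → β.r (lx * ly * lx) (lx ^ 2 * ly) :=
    fun m hm h => xyx_of_comm (comm_of h2 h3 hm h)
  have hone : ∀ m, 1 ≤ m → β.r 1 (lx ^ m) → β.r (lx * ly * lx) (lx ^ 2 * ly) := by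
    intro m hm h
    apply hcom (m + 1) (by omega)
    have := FIC.mulR lx h
    rwa [one_mul, ← pow_succ] at this
  have hcs : ∀ i, β.r (lx ^ cnt i (lx * ly * lx)) (lx ^ cnt i w) := by
    intro i
    have := β.sub (cs i) h
    rwa [cs_apply, cs_apply] at this
  by_cases ho : ∃ i, i ≠ 0 ∧ i ≠ 1 ∧ cnt i w ≠ 0
  · obtain ⟨i, h0, h1, hi⟩ := ho
    have e := hcs i
    have e2 : cnt i (lx * ly * lx) = 0 := by simp [cnt_lx_other h0, cnt_ly_other h1]
    rw [e2, pow_zero] at e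
    exact hone _ (by omega) e
  push Not at ho
  have e1 := hcs 1
  have e11 : cnt 1 (lx * ly * lx) = 1 := by simp [cnt_lx, cnt_ly]
  rw [e11, pow_one] at e1
  have e0 := hcs 0
  have e00 : cnt 0 (lx * ly * lx) = 2 := by simp [cnt_lx, cnt_ly]
  rw [e00] at e0
  rcases Nat.lt_trichotomy (cnt 1 w) 1 with hb | hb | hb
  · have hb : cnt 1 w = 0 := by omega
    rw [hb, pow_zero] at e1
    exact hone 1 le_rfl (by rw [pow_one]; exact β.symm e1)
  · rcases Nat.lt_or_ge (cnt 0 w) 2 with ha | ha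
    · interval_cases hh : cnt 0 w
      · rw [pow_zero] at e0
        exact hone 2 (by omega) (β.symm e0)
      · rw [pow_one] at e0
        exact hcom 2 le_rfl (β.symm e0)
    · obtain ⟨l, m, hlm, hl, hm⟩ := split_ly hb
      have hin : ∀ u : Word, 1 ∉ ct u → (∀ i, i ≠ 0 → i ≠ 1 → cnt i u = 0) → u = lx ^ cnt 0 u := by
        intro u hu h'
        apply pow_of_ct
        intro i hi
        by_contra h4
        have h5 : i ≠ 0 := by simpa using h4
        by_cases h6 : i = 1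
        · subst h6; exact hu hi
        · exact (cnt_eq_zero.1 (h' i h5 h6)) hi
      have hc : ∀ i, cnt i w = cnt i l + cnt i ly + cnt i m := by
        intro i
        rw [hlm, cnt_mul, cnt_mul]
      have hl' := hin l hl (by
        intro i h0 h1
        have := ho i h0 h1
        rw [hc] at this
        omega)
      have hm' := hin m hm (by
        intro i h0 h1
        have := ho i h0 h1
        rw [hc] at this
        omega)
      have h0c := hc 0
      have hy : cnt 0 ly = 0 := by simp [cnt_ly]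
      rw [hy] at h0c
      set p := cnt 0 l with hp
      set q := cnt 0 m with hq
      have hpq : ¬ (p = 1 ∧ q = 1) := by
        rintro ⟨h5, h6⟩
        apply hw
        rw [hlm, hl', hm', h5, h6, pow_one]
      have hw2 : w = lx ^ p * ly * lx ^ q := by rw [hlm, hl', hm']
      have hsum : cnt 0 w = p + q := by omega
      rw [hsum] at e0 ha
      have hor : 2 ≤ p ∨ 2 ≤ q := by omega
      refine β.trans h ?_
      rw [hw2]
      rcases hor with h5 | h5
      · refine β.trans (FIC.mulR _ (cen h2 h3 p h5)) ?_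
        rw [mul_assoc, ← pow_add]
        exact β.trans (FIC.mulL _ (β.symm e0)) (β.symm h2)
      · rw [mul_assoc]
        refine β.trans (FIC.mulL _ (β.symm (cen h2 h3 q h5))) ?_
        rw [← mul_assoc, ← pow_add]
        exact FIC.mulR _ (β.symm e0)
  · exact hcom _ hb e1

/-- `x^a ≈ x^b` gives `x^(a+c) ≈ x^(a+c+j(b-a))` -/
theorem pow_per {a d : ℕ} (h : β.r (lx ^ a) (lx ^ (a + d))) (c j : ℕ) :
    β.r (lx ^ (a + c)) (lx ^ (a + c + j * d)) := by
  induction j with
  | zero => rw [Nat.zero_mul, Nat.add_zero]; exact β.refl _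
  | succ j ih =>
    refine β.trans ih ?_
    have e1 : a + c + j * d = a + (c + j * d) := by ring
    have e2 : a + c + (j + 1) * d = a + d + (c + j * d) := by ring
    rw [e1, e2, pow_add, pow_add lx (a + d)]
    exact FIC.mulR _ h

/-- all high powers are central and `x²` is not an isoterm: squares and cubes are central -/
theorem cq_of_high {K : ℕ} (hK : ∀ m, K ≤ m → β.r (lx ^ m * ly) (ly * lx ^ m))
    {w : Word} (hw : w ≠ lx ^ 2) (h : β.r (lx ^ 2) w) :
    β.r (lx ^ 2 * ly) (ly * lx ^ 2) ∧ β.r (lx ^ 3 * ly) (ly * lx ^ 3) := by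
  have key : ∀ {p q : ℕ}, β.r (lx ^ p) (lx ^ q) → K ≤ q → β.r (lx ^ p * ly) (ly * lx ^ p) :=
    fun h1 h2 => β.trans (FIC.mulR _ h1) (β.trans (hK _ h2) (FIC.mulL _ (β.symm h1)))
  -- a relation `x^a ≈ x^(a+d)` with `a ≤ 2`, `1 ≤ d` is enough
  have fin : ∀ a d, a ≤ 2 → 1 ≤ d → β.r (lx ^ a) (lx ^ (a + d)) →
      β.r (lx ^ 2 * ly) (ly * lx ^ 2) ∧ β.r (lx ^ 3 * ly) (ly * lx ^ 3) := by
    intro a d ha hd h1
    have h2 := pow_per h1 (2 - a) K
    have h3 := pow_per h1 (3 - a) K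
    rw [show a + (2 - a) = 2 by omega] at h2
    rw [show a + (3 - a) = 3 by omega] at h3
    exact ⟨key h2 (by nlinarith), key h3 (by nlinarith)⟩
  have hcs : ∀ i, β.r (lx ^ cnt i (lx ^ 2)) (lx ^ cnt i w) := by
    intro i
    have := β.sub (cs i) h
    rwa [cs_apply, cs_apply] at this
  by_cases ho : ∃ i, i ≠ 0 ∧ cnt i w ≠ 0
  · obtain ⟨i, h0, hi⟩ := ho
    have e := hcs i
    have e2 : cnt i (lx ^ 2) = 0 := by rw [cnt_pow, cnt_lx_other h0]
    rw [e2] at e
    exact fin 0 (cnt i w) (by omega) (by omega) (by rwa [Nat.zero_add])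
  push Not at ho
  have hw2 : w = lx ^ cnt 0 w := by
    apply pow_of_ct
    intro i hi
    by_contra h4
    have h5 : i ≠ 0 := by simpa using h4
    exact (cnt_eq_zero.1 (ho i h5)) hi
  rw [hw2] at h hw
  generalize cnt 0 w = a at h hw
  have ha2 : a ≠ 2 := fun h => hw (by rw [h])
  rcases Nat.lt_or_ge a 2 with h5 | h5
  · exact fin a (2 - a) (by omega) (by omega) (by
      rw [show a + (2 - a) = 2 by omega]; exact β.symm h)
  · exact fin 2 (a - 2) le_rfl (by omega) (by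
      rw [show 2 + (a - 2) = a by omega]; exact h)

end

end Pool.Agent.MVO.H83
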