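import Pool.Agent.Helper83_MVO.Asm
import Pool.Agent.Helper83_MVO.Xyx

/-!
# The classification for varieties (MP_23468a_al)
-/

namespace Pool.Agent.MVO.H83

open Pool.Agent.Helper14_MV Pool.Agent.Helper2_MV Pool.Agent.MVO

theorem iso2_of {β : FIC} (h : ∀ w, β.r (lx ^ 2) w → w = lx ^ 2) : MVD.Iso2 β := by
  intro l hl
  have h1 := h (FreeMonoid.ofList l) hl
  exact congrArg FreeMonoid.toList h1

theorem cent_iff {β : FIC} : Cent β ↔ ∃ k, ∀ m, k ≤ m → β.r (lx ^ m * ly) (ly * lx ^ m) := by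
  have e : ∀ m, FreeMonoid.ofList (List.replicate m 0) = lx ^ m := by
    intro m
    induction m with
    | zero => rfl
    | succ m ih =>
      rw [List.replicate_succ', FreeMonoid.ofList_append, ih, pow_succ]
      rfl
  have e1 : ∀ m, FreeMonoid.ofList (List.replicate m 0 ++ [1]) = lx ^ m * ly := by
    intro m
    rw [FreeMonoid.ofList_append, e]
    rfl
  have e2 : ∀ m, FreeMonoid.ofList (1 :: List.replicate m 0) = ly * lx ^ m := by
    intro m
    rw [show (1 :: List.replicate m 0) = [1] ++ List.replicate m 0 from rfl,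
      FreeMonoid.ofList_append, e]
    rfl
  unfold Cent RR
  constructor
  · rintro ⟨k, h⟩
    refine ⟨k, fun m hm => ?_⟩
    have := h m hm
    rwa [e1, e2] at this
  · rintro ⟨k, h⟩
    refine ⟨k, fun m hm => ?_⟩
    rw [e1, e2]
    exact h m hm

theorem rr_mir {β : FIC} (R : Rows) : RR (MVD.mir β) = fun u v => RR β u.reverse v.reverse := by
  funext u v
  exact propext ((R.mir β).1 u v)

theorem sq_of {β : FIC} (h : β.r (lx ^ 2 * ly) (ly * lx ^ 2)) : MVD.SQ β := by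
  have h1 : RR β [0, 0, 1] [1, 0, 0] := h
  exact RR.sub (fun c => if c = 1 then [2] else [c]) h1

theorem cu_of {β : FIC} (h : β.r (lx ^ 3 * ly) (ly * lx ^ 3)) : MVK.CU β := by
  have h1 : RR β [0, 0, 0, 1] [1, 0, 0, 0] := h
  exact RR.sub (fun c => if c = 1 then [2] else [c]) h1

theorem iso3_of {β : FIC} (h : ¬ ∃ w, w ≠ lx * ly * lx ∧ β.r (lx * ly * lx) w) : Iso3 β := by
  intro l hl
  by_contra hn
  apply h
  refine ⟨FreeMonoid.ofList l, ?_, hl⟩
  intro h1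
  exact hn (congrArg FreeMonoid.toList h1)

theorem not_iso3 {β : FIC} {w : Word} (hw : w ≠ lx * ly * lx) (h : β.r (lx * ly * lx) w) :
    ¬ Iso3 β := fun hi => hw (congrArg FreeMonoid.ofList (hi w.toList h))

/-- the classification for fully invariant congruences -/
theorem fin (R : Rows) {β : FIC} (h : (∀ w, β.r (lx ^ 2) w → w = lx ^ 2) ∨
    (β.r (lx ^ 2 * ly) (ly * lx ^ 2) ∧ β.r (lx ^ 3 * ly) (ly * lx ^ 3))) :
    ModF β ↔ (∃ k, ∀ m, k ≤ m → β.r (lx ^ m * ly) (ly * lx ^ m)) ∧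
      ((∃ w, w ≠ lx * ly * lx ∧ β.r (lx * ly * lx) w) ∨ Sys.Good (RR β) ∨
        Sys.Good (fun u v => RR β u.reverse v.reverse)) := by
  rw [← rr_mir R]
  by_cases h3 : ∃ w, w ≠ lx * ly * lx ∧ β.r (lx * ly * lx) w
  · obtain ⟨w, hw, hw2⟩ := h3
    rcases h with h | ⟨h2, h3⟩
    · constructor
      · intro hm
        obtain ⟨k, _, hk⟩ := B2 hm h
        exact ⟨⟨k, hk⟩, Or.inl ⟨w, hw, hw2⟩⟩
      · rintro ⟨⟨k, hk⟩, -⟩
        exact modF_of_xyx (xyx_of_iso h hw hw2) (k := k + 1) (by omega) (hk _ (by omega))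
    · have h1 := xyx_of_cq h2 h3 hw hw2
      exact ⟨fun _ => ⟨⟨2, cen h2 h3⟩, Or.inl ⟨w, hw, hw2⟩⟩,
        fun _ => modF_of_xyx (Or.inl h1) (k := 2) (by omega) h2⟩
  · have hi := iso3_of h3
    rcases h with h | ⟨h2, h4⟩
    · constructor
      · intro hm
        obtain ⟨k, _, hk⟩ := B2 hm h
        exact ⟨⟨k, hk⟩, Or.inr ((main R hi (Or.inl ⟨iso2_of h, cent_iff.2 ⟨k, hk⟩⟩)).1 hm)⟩
      · rintro ⟨hc, hg⟩
        exact (main R hi (Or.inl ⟨iso2_of h, cent_iff.2 hc⟩)).2 (hg.resolve_left h3)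
    · have hq : MVK.CQ β := ⟨sq_of h2, cu_of h4⟩
      constructor
      · intro hm
        exact ⟨⟨2, cen h2 h4⟩, Or.inr ((main R hi (Or.inr hq)).1 hm)⟩
      · rintro ⟨-, hg⟩
        exact (main R hi (Or.inr hq)).2 (hg.resolve_left h3)

/-- the classification for varieties -/
theorem final (R : Rows) (V : Variety)
    (h : (∀ w, V.Sat (lx ^ 2) w → w = lx ^ 2) ∨
      ∃ k, ∀ m, k ≤ m → V.Sat (lx ^ m * ly) (ly * lx ^ m)) :
    V.ModularLattice ↔ (∃ k, ∀ m, k ≤ m → V.Sat (lx ^ m * ly) (ly * lx ^ m)) ∧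
      ((∃ w, w ≠ lx * ly * lx ∧ V.Sat (lx * ly * lx) w) ∨
        Sys.Good (fun u v => V.Sat (FreeMonoid.ofList u) (FreeMonoid.ofList v)) ∨
        Sys.Good (fun u v => V.Sat (FreeMonoid.ofList u.reverse)
          (FreeMonoid.ofList v.reverse))) := by
  have h' : (∀ w, V.Sat (lx ^ 2) w → w = lx ^ 2) ∨
      (V.Sat (lx ^ 2 * ly) (ly * lx ^ 2) ∧ V.Sat (lx ^ 3 * ly) (ly * lx ^ 3)) := by
    rcases h with h | ⟨k, h⟩
    · exact Or.inl h
    · by_cases h2 : ∀ w, V.Sat (lx ^ 2) w → w = lx ^ 2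
      · exact Or.inl h2
      · push Not at h2
        obtain ⟨w, hw1, hw2⟩ := h2
        exact Or.inr (cq_of_high (β := th V) h hw2 hw1)
  rw [modular_iff]
  exact fin R (β := th V) h'

end Pool.Agent.MVO.H83
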