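import Pool.Agent.Helper83_MVO.Asm
import Pool.Agent.Helper20_MVO.All
import Pool.Agent.Helper20_MVK.All
import Pool.Agent.Helper11_MVD.Loc
import Pool.Agent.Helper11_MVD.Div

/-!
# All rows (MP_23468a_al)
-/

namespace Pool.Agent.MVO.H83

theorem rows : Rows where
  hA := All.hSfa
  nA := All.hNea
  rA := All.hRga
  hC := All.hScc
  nC := All.hNd5
  gC := All.hGg2
  rC := All.hRg2
  lC := MVD.H11.loc
  hV := All.hSfv
  nV := All.hNev
  rV := All.hRgv
  mC := All.hMrc
  mT := All.hMrt
  mir := MVD.H81.mir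
  dv := MVD.H11.division
  kx := MVK.H20.kax

end Pool.Agent.MVO.H83
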