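import Pool.Agent.Helper83_MVO.Brg
import Pool.Agent.MVD.StmtsLoc
import Pool.Agent.MVK.Stmts

/-!
# Assembly of the classification (MP_23468a_al)
-/

namespace Pool.Agent.MVO.H83

open Pool.Agent.Helper14_MV Pool.Agent.Helper2_MV Pool.Agent.MVO

/-- all rows which are used -/
structure Rows : Prop where
  hA : SfaStmt
  nA : NeaStmt
  rA : RgaStmt
  hC : SccStmt
  nC : Nd5Stmt
  gC : Gg2Stmt
  rC : Rg2Stmt
  lC : MVD.LcnStmt
  hV : SfvStmt
  nV : NevStmt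
  rV : RgvStmt
  mC : MrcStmt
  mT : MrtStmt
  mir : MVD.MirStmt
  dv : MVD.AsmStmt
  kx : MVK.KaxStmt

theorem th_of_iso2 {β : FIC} (h : MVD.Iso2 β) : β ≤ thC3 := by
  apply le_thC3
  intro w hw
  have h1 := h w.toList hw
  exact FreeMonoid.toList.injective h1

variable (R : Rows)
include R

theorem suff1 {β : FIC} (hc : Cent β) (h : Sys.Good (RR β)) : ModF β := by
  rcases h with h | h | h
  · obtain ⟨h1, h2⟩ := sysA_good (R.rA β) hc h
    exact R.hA β h1 h2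
  · obtain ⟨h1, h2, h3⟩ := sysC_good (R.rC β) hc h
    exact R.hC β h1 (by tauto) h3
  · obtain ⟨h1, h2⟩ := sysV_good (R.rV β) hc h
    exact R.hV β h1 h2

theorem mm (β : FIC) : MVD.mir (MVD.mir β) = β := (R.mT β).2.2.2.1

theorem cent_mir {β : FIC} (h : Cent β) : Cent (MVD.mir β) := (R.mC β).2.2.2.2.2.2.2.2.2.2.2.2.2.2.2.1 h

theorem modF_mir {β : FIC} (h : ModF (MVD.mir β)) : ModF β := (R.mC β).2.2.2.2.2.2.2.2.2.2.2.2.2.2.2.2 h

theorem suff {β : FIC} (hc : Cent β) (h : Sys.Good (RR β) ∨ Sys.Good (RR (MVD.mir β))) :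
    ModF β := by
  rcases h with h | h
  · exact suff1 R hc h
  · exact modF_mir R (suff1 R (cent_mir R hc) h)

/-- the three classes -/
def Cls (β : FIC) : Prop := MVD.Ca β ∨ (MVD.Cc β ∧ (MVD.IA β ∨ MVD.LC3 β)) ∨ MVD.Ve β

theorem nec1 {β : FIC} (h2 : MVD.Iso2 β) (h3 : Iso3 β) (hm : ModF β) (hc : Cent β) (h : Cls β) :
    Sys.Good (RR β) := by
  have hth := th_of_iso2 h2
  rcases h with h | ⟨h, hl⟩ | h
  · have hcl : ClA β := clA_iff.2 ⟨h.1, h.2.1⟩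
    exact Or.inl (good_sysA (R.rA β hcl) hcl (R.nA β hth h3 hcl hm))
  · have hr := R.rC β h
    refine Or.inr (Or.inl (good_sysC hr h hl ⟨hc, ?_⟩))
    rcases R.nC β ⟨hth, h3, h, hm, hc, R.gC β h, hr⟩ with ⟨h1, c⟩ | h' | h' | h'
    · refine Or.inl ⟨h1, c.imp id (fun c => c.2), c.imp id (fun c => c.1)⟩
    · exact Or.inr (Or.inl h')
    · exact Or.inr (Or.inr (Or.inl h'))
    · exact Or.inr (Or.inr (Or.inr h'))
  · exact Or.inr (Or.inr (good_sysV (R.rV β h) h (R.nV β hth h3 h hm)))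

theorem cls_of {β : FIC} (hd : MVD.Ca β ∨ MVD.Ca' β ∨ MVD.Cc β ∨ MVD.Ve β ∨ MVD.Ve' β)
    (hl : MVD.Cc β → MVD.IA β ∨ MVD.IAd β ∨ MVD.LC3 β ∨ MVD.LC3 (MVD.mir β)) :
    Cls β ∨ Cls (MVD.mir β) := by
  obtain ⟨-, -, -, -, s1, s2, s3, r0, -, -, -, -, ff, zz, f1l, f1r⟩ := R.mir β
  rcases hd with h | h | h | h | h
  · exact Or.inl (Or.inl h)
  · exact Or.inr (Or.inl ⟨s1.2 h.2.1, s2.2 h.1, r0.2 h.2.2⟩)
  · have hc := (R.mC β).1.2 h
    rcases hl h with h' | h' | h' | h'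
    · exact Or.inl (Or.inr (Or.inl ⟨h, Or.inl h'⟩))
    · exact Or.inr (Or.inr (Or.inl ⟨hc, Or.inl ((R.mC β).2.1.2 h')⟩))
    · exact Or.inl (Or.inr (Or.inl ⟨h, Or.inr h'⟩))
    · exact Or.inr (Or.inr (Or.inl ⟨hc, Or.inr h'⟩))
  · exact Or.inl (Or.inr (Or.inr h))
  · exact Or.inr (Or.inr (Or.inr ⟨f1l.2 h.1, ff.2 h.2.2, zz.2 h.2.1⟩))

theorem nec2 {β : FIC} (h2 : MVD.Iso2 β) (h3 : Iso3 β) (hm : ModF β) (hc : Cent β) :
    Sys.Good (RR β) ∨ Sys.Good (RR (MVD.mir β)) := by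
  rcases cls_of R (R.dv β hm h2 h3) (R.lC β hm h2 h3) with h | h
  · exact Or.inl (nec1 R h2 h3 hm hc h)
  · obtain ⟨-, i1, i2, i3, -⟩ := R.mir β
    exact Or.inr (nec1 R (i2 h2) (i3 h3) (i1 hm) (cent_mir R hc) h)

omit R in
theorem sq_facts {β : FIC} (h : MVD.SQ β) :
    Sys.P4 (RR β) ∧ RR β [0, 2, 0, 1, 1] [0, 2, 1, 1, 0] ∧ RR β [0, 0, 1, 1] [1, 1, 0, 0] := by
  have e1 : RR β [0, 0, 2] [2, 0, 0] := h
  refine ⟨⟨(RR.append e1 (RR.refl [0])).symm, (RR.append (RR.refl [0]) e1).symm⟩, ?_, ?_⟩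
  · have h1 := RR.sub (fun c => if c = 0 then [1] else if c = 2 then [0] else [c]) e1
    exact (RR.append (RR.refl [0, 2]) h1).symm
  · exact RR.sub (fun c => if c = 2 then [1, 1] else [c]) e1

omit R in
theorem good_of_sq {β : FIC} (hq : MVD.SQ β) (h : Cls β) : Sys.Good (RR β) := by
  obtain ⟨h4, ha, h0⟩ := sq_facts hq
  rcases h with h | ⟨h, -⟩ | h
  · exact Or.inl ⟨s1_iff.2 h.1, s2_iff.2 h.2.1, h0, Or.inr (Or.inr (Or.inr h4))⟩
  · exact Or.inr (Or.inl ⟨s2_iff.2 h.1, h.2.1, h.2.2, Or.inl ha, Or.inr (Or.inr (Or.inr h4))⟩)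
  · exact Or.inr (Or.inr ⟨h.1, h.2.1, h.2.2, Or.inr (Or.inr (Or.inr h4))⟩)

theorem sq_mir {β : FIC} (h : MVD.SQ β) : MVD.SQ (MVD.mir β) := by
  have := ((R.mir β).1 [2, 0, 0] [0, 0, 2]).2 h
  exact this.symm

theorem nec3 {β : FIC} (hq : MVK.CQ β) (h3 : Iso3 β) (hm : ModF β) :
    Sys.Good (RR β) ∨ Sys.Good (RR (MVD.mir β)) := by
  rcases cls_of R (R.kx β hm hq h3) (fun _ => Or.inl (ia_iff.1 (sq_facts hq.1).2.1)) with h | h
  · exact Or.inl (good_of_sq hq.1 h)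
  · exact Or.inr (good_of_sq (sq_mir R hq.1) h)

omit R in
/-- squares and cubes central: all powers `x^m`, `m ≥ 2`, are central -/
theorem cent_of_cq {β : FIC} (h : MVK.CQ β) : Cent β := by
  refine ⟨2, fun m hm => ?_⟩
  have e2 : RR β [0, 0, 1] [1, 0, 0] := RR.sub (fun c => if c = 2 then [1] else [c]) h.1
  have e3 : RR β [0, 0, 0, 1] [1, 0, 0, 0] := RR.sub (fun c => if c = 2 then [1] else [c]) h.2
  induction m using Nat.strong_induction_on with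
  | _ m ih =>
    rcases Nat.lt_or_ge m 4 with h4 | h4
    · interval_cases m
      · exact e2
      · exact e3
    · obtain ⟨k, rfl⟩ : ∃ k, m = k + 2 := ⟨m - 2, by omega⟩
      have h1 := ih k (by omega) (by omega)
      have a1 : List.replicate (k + 2) 0 ++ [1] = List.replicate k 0 ++ [0, 0, 1] := by
        rw [List.replicate_add, List.append_assoc]; rfl
      have a2 : 1 :: List.replicate (k + 2) 0 = (1 :: List.replicate k 0) ++ [0, 0] := by
        rw [List.replicate_add]; rfl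
      have a3 : List.replicate k 0 ++ [1, 0, 0] = (List.replicate k 0 ++ [1]) ++ [0, 0] := by
        rw [List.append_assoc]; rfl
      rw [a1, a2]
      refine β.trans (RR.append (RR.refl _) e2) ?_
      rw [a3]
      exact RR.append h1 (RR.refl _)

/-- the classification for fully invariant congruences -/
theorem main {β : FIC} (h3 : Iso3 β) (h : (MVD.Iso2 β ∧ Cent β) ∨ MVK.CQ β) :
    ModF β ↔ (Sys.Good (RR β) ∨ Sys.Good (RR (MVD.mir β))) := by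
  constructor
  · intro hm
    rcases h with ⟨h, hc⟩ | h
    · exact nec2 R h h3 hm hc
    · exact nec3 R h h3 hm
  · intro hg
    rcases h with ⟨h, hc⟩ | h
    · exact suff R hc hg
    · exact suff R (cent_of_cq h) hg

end Pool.Agent.MVO.H83
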