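import Pool.Agent.MVO.StmtsZ

/-!
# Translation of the explicit identity systems (MP_23468a_al)
-/

namespace Pool.Agent.MVO.H83

open Pool.Agent.Helper14_MV Pool.Agent.Helper2_MV Pool.Agent.MVO

/-- with `Rig` one exchange gives all -/
theorem bt_of {β : FIC} (hr : Rig β) {k : ℕ} {a b : ℕ → ℕ} {i : ℕ} (ha : 2 ≤ deg k a)
    (hb : 2 ≤ deg k b) (e0 : ℕ → Bool) (h : Ex β k a b e0 i) : Bt β k a b i := by
  obtain ⟨r, hr⟩ := hr k a b ha hb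
  intro e
  unfold Ex at *
  by_cases hri : r = i
  · subst hri
    by_cases he : e r = e0 r
    · have h1 : RR β (w2 k a b e) (w2 k a b e0) := hr _ _ he
      have h2 : RR β (w2 k a b (flp e0 r)) (w2 k a b (flp e r)) := by
        apply hr
        simp [flp, he]
      exact β.trans h1 (β.trans h h2)
    · have h1 : RR β (w2 k a b e) (w2 k a b (flp e0 r)) := by
        apply hr
        simp only [flp, if_true]
        cases h1 : e r <;> cases h2 : e0 r <;> simp_all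
      have h2 : RR β (w2 k a b e0) (w2 k a b (flp e r)) := by
        apply hr
        simp only [flp, if_true]
        cases h1 : e r <;> cases h2 : e0 r <;> simp_all
      exact β.trans h1 (β.trans (β.symm h) h2)
  · apply hr
    simp [flp, hri]

theorem bt_iff {β : FIC} (hr : Rig β) {k : ℕ} {a b : ℕ → ℕ} {i : ℕ} (ha : 2 ≤ deg k a)
    (hb : 2 ≤ deg k b) :
    Bt β k a b i ↔ RR β (w2 k a b (fun _ => false)) (w2 k a b (flp (fun _ => false) i)) :=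
  ⟨fun h => h _, fun h => bt_of hr ha hb _ h⟩

theorem t1 (p q : ℕ) : deg 1 (v2 p q) = p + q := by
  simp [deg, v2, Finset.sum_range_succ]

theorem u1 {p q : ℕ} (h : 2 ≤ p + q) : 2 ≤ deg 1 (v2 p q) := by rw [t1]; exact h

theorem t2 (p q r : ℕ) : deg 2 (v3 p q r) = p + q + r := by
  simp [deg, v3, Finset.sum_range_succ]

theorem u2 {p q r : ℕ} (h : 2 ≤ p + q + r) : 2 ≤ deg 2 (v3 p q r) := by rw [t2]; exact h

section
variable {β : FIC}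

theorem p1 : Sys.P1 (RR β) ↔ O1 (FC.ofFIC β) := Iff.rfl
theorem p2 : Sys.P2 (RR β) ↔ O2 (FC.ofFIC β) := Iff.rfl
theorem p3 : Sys.P3 (RR β) ↔ O3 (FC.ofFIC β) := Iff.rfl
theorem p4 : Sys.P4 (RR β) ↔ O4 (FC.ofFIC β) := Iff.rfl
theorem q1 : Sys.Q1 (RR β) ↔ II (FC.ofFIC β) := Iff.rfl
theorem q2 : Sys.Q2 (RR β) ↔ JJ (FC.ofFIC β) := Iff.rfl
theorem q3 : Sys.Q3 (RR β) ↔ JJd (FC.ofFIC β) := Iff.rfl

theorem d1 (hr : Rig β) : Sys.D1 (RR β) ↔ Bt β 2 (v3 0 2 1) (v3 1 0 1) 2 := by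
  rw [bt_iff hr (u2 (by decide)) (u2 (by decide))]
  exact Iff.rfl
theorem d2 (hr : Rig β) : Sys.D2 (RR β) ↔ Bt β 2 (v3 2 0 1) (v3 0 1 1) 2 := by
  rw [bt_iff hr (u2 (by decide)) (u2 (by decide))]
  exact Iff.rfl
theorem d3 (hr : Rig β) : Sys.D3 (RR β) ↔ Bt β 2 (v3 1 2 0) (v3 1 0 1) 0 := by
  rw [bt_iff hr (u2 (by decide)) (u2 (by decide))]
  exact Iff.rfl
theorem d4 (hr : Rig β) : Sys.D4 (RR β) ↔ Bt β 2 (v3 1 0 2) (v3 1 1 0) 0 := by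
  rw [bt_iff hr (u2 (by decide)) (u2 (by decide))]
  exact Iff.rfl
theorem d5 (hr : Rig β) : Sys.D5 (RR β) ↔ Vb4 β := by
  unfold Vb4
  rw [bt_iff hr (u2 (by decide)) (u2 (by decide))]
  exact Iff.rfl
theorem d6 (hr : Rig β) : Sys.D6 (RR β) ↔ Vb5 β := by
  unfold Vb5
  rw [bt_iff hr (u1 (by decide)) (u1 (by decide))]
  exact Iff.rfl
theorem d7 (hr : Rig β) : Sys.D7 (RR β) ↔ Bt β 1 (v2 0 3) (v2 1 1) 1 := by
  rw [bt_iff hr (u1 (by decide)) (u1 (by decide))]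
  exact Iff.rfl

/-- renaming of the letters `0, 1, 2, 3` to `0, 3, 2, 5` -/
def r1 (c : ℕ) : List ℕ := if c = 1 then [3] else if c = 3 then [5] else [c]
/-- renaming of the letters `0, 3, 2, 5` to `0, 1, 2, 3` -/
def r2' (c : ℕ) : List ℕ := if c = 3 then [1] else if c = 5 then [3] else [c]

theorem s1_iff : RR β [0, 1, 2, 0, 3, 1] [1, 0, 2, 0, 3, 1] ↔ MVD.S1 β :=
  ⟨fun h => h.sub r1, fun h => RR.sub r2' h⟩
theorem s2_iff : RR β [0, 2, 0, 1, 3, 1] [0, 2, 1, 0, 3, 1] ↔ MVD.S2 β :=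
  ⟨fun h => h.sub r1, fun h => RR.sub r2' h⟩
theorem r0_iff : RR β [0, 0, 1, 1] [1, 1, 0, 0] ↔ MVD.R0 β :=
  ⟨fun h => h.sub r1, fun h => RR.sub r2' h⟩
theorem ia_iff : RR β [0, 2, 0, 1, 1] [0, 2, 1, 1, 0] ↔ MVD.IA β :=
  ⟨fun h => h.sub r1, fun h => RR.sub r2' h⟩

theorem clA_iff : ClA β ↔ MVD.S1 β ∧ MVD.S2 β :=
  ⟨fun h => ⟨s1_iff.1 h.s1, s2_iff.1 h.s2⟩, fun h => ⟨s1_iff.2 h.1, s2_iff.2 h.2⟩⟩

theorem lc3_iff : (Sys.H1 (RR β) ∧ Sys.H2 (RR β) ∧ Sys.H3 (RR β)) ↔ MVD.LC3 β := Iff.rfl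

theorem good_sysA (hr : Rig β) (h : ClA β) (hg : GoodA β) : Sys.SysA (RR β) := by
  obtain ⟨hR, _, hg⟩ := hg
  refine ⟨h.s1, h.s2, hR, ?_⟩
  rcases hg with ⟨h1, c1, c2, c3⟩ | ⟨h1, c1, c2, c3⟩ | h3 | h4
  · refine Or.inl ⟨h1, ?_, ?_⟩
    · rcases c1 with c | c | c
      · exact Or.inl c
      · exact Or.inr (Or.inl ((d7 hr).2 c))
      · exact Or.inr (Or.inr (c (fun _ => false)))
    · rcases c2 with c2 | c2
      · exact Or.inl c2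
      rcases c3 with c3 | c3 | c3
      · exact Or.inl c3
      · exact Or.inr ⟨(d1 hr).2 c2, Or.inl ((d2 hr).2 c3)⟩
      · exact Or.inr ⟨(d1 hr).2 c2, Or.inr (c3 (fun _ => false))⟩
  · refine Or.inr (Or.inl ⟨h1, ?_, ?_⟩)
    · rcases c1 with c | c | c
      · exact Or.inl c
      · exact Or.inr (Or.inl ((d7 hr).2 c))
      · exact Or.inr (Or.inr (c (fun _ => false)))
    · rcases c2 with c2 | c2
      · exact Or.inl c2
      rcases c3 with c3 | c3 | c3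
      · exact Or.inl c3
      · exact Or.inr ⟨(d2 hr).2 c2, Or.inl ((d1 hr).2 c3)⟩
      · exact Or.inr ⟨(d2 hr).2 c2, Or.inr (c3 (fun _ => false))⟩
  · exact Or.inr (Or.inr (Or.inl h3))
  · exact Or.inr (Or.inr (Or.inr h4))

theorem sysA_good (hr : ClA β → Rig β) (hc : Cent β) (h : Sys.SysA (RR β)) :
    ClA β ∧ GoodA β := by
  obtain ⟨h1, h2, hR, hg⟩ := h
  have hcl : ClA β := ⟨h1, h2⟩
  have hr := hr hcl
  refine ⟨hcl, hR, hc, ?_⟩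
  rcases hg with ⟨h1, c1, c2⟩ | ⟨h1, c1, c2⟩ | h3 | h4
  · refine Or.inl ⟨h1, ?_, ?_, ?_⟩
    · rcases c1 with c | c | c
      · exact Or.inl c
      · exact Or.inr (Or.inl ((d7 hr).1 c))
      · exact Or.inr (Or.inr (bt_of hr (u1 (by decide)) (u1 (by decide)) (fun _ => false) c))
    · exact c2.imp id (fun c => (d1 hr).1 c.1)
    · rcases c2 with c | ⟨-, c⟩
      · exact Or.inl c
      · right
        exact c.imp (fun c => (d2 hr).1 c)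
          (fun c => bt_of hr (u2 (by decide)) (u2 (by decide)) (fun _ => false) c)
  · refine Or.inr (Or.inl ⟨h1, ?_, ?_, ?_⟩)
    · rcases c1 with c | c | c
      · exact Or.inl c
      · exact Or.inr (Or.inl ((d7 hr).1 c))
      · exact Or.inr (Or.inr (bt_of hr (u1 (by decide)) (u1 (by decide)) (fun _ => false) c))
    · exact c2.imp id (fun c => (d2 hr).1 c.1)
    · rcases c2 with c | ⟨-, c⟩
      · exact Or.inl c
      · right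
        exact c.imp (fun c => (d1 hr).1 c)
          (fun c => bt_of hr (u2 (by decide)) (u2 (by decide)) (fun _ => false) c)
  · exact Or.inr (Or.inr (Or.inl h3))
  · exact Or.inr (Or.inr (Or.inr h4))

theorem good_sysC (hr : Rig β) (h : MVD.Cc β) (hl : MVD.IA β ∨ MVD.LC3 β) (hg : GoodC3 β) :
    Sys.SysC (RR β) := by
  obtain ⟨_, hg⟩ := hg
  refine ⟨s2_iff.2 h.1, h.2.1, h.2.2, hl.imp ia_iff.2 lc3_iff.2, ?_⟩
  rcases hg with ⟨h1, c1, c2⟩ | ⟨h1, c1⟩ | ⟨h1, c1⟩ | h4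
  · refine Or.inl ⟨h1, ?_⟩
    rcases c1 with c1 | c1
    · exact Or.inl c1
    rcases c2 with c2 | c2
    · exact Or.inl c2
    exact Or.inr ⟨(d1 hr).2 c2, (d3 hr).2 c1⟩
  · exact Or.inr (Or.inl ⟨h1, c1.imp id (d2 hr).2⟩)
  · exact Or.inr (Or.inr (Or.inl ⟨h1, c1.imp id (d4 hr).2⟩))
  · exact Or.inr (Or.inr (Or.inr h4))

theorem sysC_good (hr : MVD.Cc β → Rig β) (hc : Cent β) (h : Sys.SysC (RR β)) :
    MVD.Cc β ∧ (MVD.IA β ∨ MVD.LC3 β) ∧ GoodC3 β := by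
  obtain ⟨h1, h2, h3, hl, hg⟩ := h
  have hcl : MVD.Cc β := ⟨s2_iff.1 h1, h2, h3⟩
  have hr := hr hcl
  refine ⟨hcl, hl.imp ia_iff.1 lc3_iff.1, hc, ?_⟩
  rcases hg with ⟨h1, c1⟩ | ⟨h1, c1⟩ | ⟨h1, c1⟩ | h4
  · exact Or.inl ⟨h1, c1.imp id (fun c => (d3 hr).1 c.2), c1.imp id (fun c => (d1 hr).1 c.1)⟩
  · exact Or.inr (Or.inl ⟨h1, c1.imp id (d2 hr).1⟩)
  · exact Or.inr (Or.inr (Or.inl ⟨h1, c1.imp id (d4 hr).1⟩))
  · exact Or.inr (Or.inr (Or.inr h4))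

theorem good_sysV (hr : Rig β) (h : MVD.Ve β) (hg : GoodV β) : Sys.SysV (RR β) := by
  obtain ⟨_, hg⟩ := hg
  refine ⟨h.1, h.2.1, h.2.2, ?_⟩
  rcases hg with ⟨h1, c1, c2⟩ | ⟨h1, c1, c2⟩ | ⟨h1, c1⟩ | h4
  · exact Or.inl ⟨h1, c1.imp id (d6 hr).2, c2.imp id (fun c => ⟨(d1 hr).2 c.1, (d5 hr).2 c.2⟩)⟩
  · exact Or.inr (Or.inl ⟨h1, c1.imp id (d6 hr).2, c2.imp id (fun c => ⟨(d2 hr).2 c.2.2.1,
      (d5 hr).2 c.2.2.2, c.1 (fun _ => false), c.2.1 (fun _ => false)⟩)⟩)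
  · exact Or.inr (Or.inr (Or.inl ⟨h1, c1.imp id (fun c => ⟨(d4 hr).2 c.2,
      c.1 (fun _ => false)⟩)⟩))
  · exact Or.inr (Or.inr (Or.inr h4))

theorem sysV_good (hr : MVD.Ve β → Rig β) (hc : Cent β) (h : Sys.SysV (RR β)) :
    MVD.Ve β ∧ GoodV β := by
  obtain ⟨h1, h2, h3, hg⟩ := h
  have hcl : MVD.Ve β := ⟨h1, h2, h3⟩
  have hr := hr hcl
  refine ⟨hcl, hc, ?_⟩
  rcases hg with ⟨h1, c1, c2⟩ | ⟨h1, c1, c2⟩ | ⟨h1, c1⟩ | h4
  · exact Or.inl ⟨h1, c1.imp id (d6 hr).1, c2.imp id (fun c => ⟨(d1 hr).1 c.1, (d5 hr).1 c.2⟩)⟩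
  · exact Or.inr (Or.inl ⟨h1, c1.imp id (d6 hr).1, c2.imp id (fun c =>
      ⟨bt_of hr (u2 (by decide)) (u2 (by decide)) (fun _ => false) c.2.2.1,
      bt_of hr (u2 (by decide)) (u2 (by decide)) (fun _ => false) c.2.2.2,
      (d2 hr).1 c.1, (d5 hr).1 c.2.1⟩)⟩)
  · exact Or.inr (Or.inr (Or.inl ⟨h1, c1.imp id (fun c =>
      ⟨bt_of hr (u2 (by decide)) (u2 (by decide)) (fun _ => false) c.2,
      (d4 hr).1 c.1⟩)⟩))
  · exact Or.inr (Or.inr (Or.inr h4))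

end

end Pool.Agent.MVO.H83
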